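import Pool.Agent.V1146.Dan.TypeB

/-!
# A variety of type B with a larger modified Derksen invariant

Let `K` be an algebraically closed field of characteristic zero and let `S` be the coordinate ring
of the affine surface `{c * c' = 1, (c - 1) ^ 2 * z = y ^ 2 + (c - 1)}`. Let `A` be the subring of
the functions with the same value at the two points `(c, y) = (-1, 0)` and `(c, y) = (-1, 1)`, and
let `Y = Spec A`. Then `Y` is of type B, but `HD*(Y × 𝔸¹)` is not `K[Y] ⊕ ⨁_{i > 0} I u ^ i`, where
`I` is the ideal generated by the images of all locally nilpotent derivations of `K[Y]`.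
-/

open Polynomial

set_option autoImplicit false

namespace Pool.Agent.Results.MP_eab3e1_ag.LargerInvariant

open Pool.Agent.H868R3 Pool.Agent.V1146

universe u

/-- `Y = Spec A` is rigid: zero is the only locally nilpotent derivation. -/
def IsRigid (K A : Type u) [Field K] [CommRing A] [Algebra K A] : Prop :=
  ∀ D : Derivation K A A, IsLND D → D = 0

/-- `Y = Spec A` is of type B: it is not rigid and the modified Derksen invariant of `Y × 𝔸¹` is
not everything. -/
def TypeB (K A : Type u) [Field K] [CommRing A] [Algebra K A] : Prop :=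
  ¬ IsRigid K A ∧ HDStar K A[X] ≠ ⊤

/-- The ideal `I` generated by all values `∂ f` of all locally nilpotent derivations `∂`. -/
def I (K A : Type u) [Field K] [CommRing A] [Algebra K A] : Ideal A :=
  Ideal.span {b : A | ∃ D : Derivation K A A, IsLND D ∧ ∃ a : A, b = D a}

/-- The set `K[Y] ⊕ ⨁_{i > 0} I u ^ i` of the polynomials in `u` whose coefficients at `u ^ i`,
`i > 0`, are in `I`. -/
def expected (K A : Type u) [Field K] [CommRing A] [Algebra K A] : Set A[X] :=
  {F : A[X] | ∀ i : ℕ, 0 < i → F.coeff i ∈ I K A}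

/-- There is a variety `Y` of type B for which `HD*(Y × 𝔸¹) ≠ K[Y] ⊕ ⨁_{i > 0} I u ^ i`. -/
theorem result (K : Type u) [Field K] [IsAlgClosed K] [CharZero K] :
    ∃ (A : Type u) (_ : CommRing A) (_ : Algebra K A), IsDomain A ∧ Algebra.FiniteType K A ∧
      TypeB K A ∧ (HDStar K A[X] : Set A[X]) ≠ expected K A := by
  refine ⟨AB K, inferInstance, inferInstance, AB_isDomain, AB_ft, ⟨?_, AB_ne_top⟩, ?_⟩
  · intro h
    obtain ⟨D, hD, hD0⟩ := AB_not_rigid (K := K)
    exact hD0 (h D hD)
  · intro h
    obtain ⟨F, hF, hF1⟩ := AB_strict (K := K)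
    have h1 : F ∈ (HDStar K (AB K)[X] : Set (AB K)[X]) := hF
    rw [h] at h1
    exact hF1 (h1 1 one_pos)

end Pool.Agent.Results.MP_eab3e1_ag.LargerInvariant
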